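import Pool.Agent.H91.NV.LTargets

/-!
# Row L_FRA: quadratic polynomials over the ring `O / P ^ 2` with a unit as leading coefficient
-/

set_option autoImplicit false

namespace Pool.Agent.H50.NVK

open Finset Pool.Agent.H91.NV

section

variable {S : Type} [CommRing S] [Fintype S] {m : Ideal S} {N : ℕ}

open Classical in
theorem fra_cm (h : LR S m N) : (univ.filter (fun s : S => s ∈ m)).card = N := by
  have := Nat.subtype_card (univ.filter (fun s : S => s ∈ m)) (p := fun s => s ∈ m) (by simp)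
  rw [← this]
  exact h.cardm

open Classical in
theorem fra_coset (h : LR S m N) (x : S) : (univ.filter (fun s : S => s + x ∈ m)).card = N := by
  rw [← fra_cm h]
  refine Finset.card_bij (fun s _ => s + x) ?_ ?_ ?_
  · intro s hs
    simpa using hs
  · intro s _ t _ hst
    exact add_right_cancel hst
  · intro t ht
    refine ⟨t - x, ?_, by ring⟩
    simpa using ht

open Classical in
theorem fra_coset' (h : LR S m N) (x : S) :
    (univ.filter (fun s : S => s + x ∉ m)).card = N ^ 2 - N := by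
  have h1 := Finset.card_filter_add_card_filter_not (s := (univ : Finset S)) (fun s : S => s + x ∈ m)
  rw [fra_coset h x, Finset.card_univ, h.cardS] at h1
  omega

open Classical in
theorem fra_single (x : S) : (univ.filter (fun s : S => s + x = 0)).card = 1 := by
  have : univ.filter (fun s : S => s + x = 0) = {-x} := by
    ext s
    simp [eq_neg_iff_add_eq_zero]
  rw [this, Finset.card_singleton]

theorem fra_mul (h : LR S m N) {x y : S} (hxy : x * y ∈ m) : x ∈ m ∨ y ∈ m := by
  by_contra hc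
  rw [not_or] at hc
  exact (h.unit _).2 (((h.unit x).1 hc.1).mul ((h.unit y).1 hc.2)) hxy

omit [CommRing S] in
open Classical in
theorem fra_sum (P : S → S → Prop) (Q : S → S → S → Prop) (n k : ℕ)
    (hQ : ∀ s b, (univ.filter (fun c => Q s b c)).card = n)
    (hP : ∀ s, (univ.filter (fun b => P s b)).card = k) :
    ∑ b : S, ∑ c : S, ((univ.filter (fun s => Q s b c ∧ P s b)).card : ℝ) =
      (Fintype.card S : ℝ) * k * n := by
  have e1 : ∀ b c : S, ((univ.filter (fun s => Q s b c ∧ P s b)).card : ℝ) =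
      ∑ s : S, (if Q s b c ∧ P s b then (1 : ℝ) else 0) := by
    intro b c
    rw [Finset.card_filter]
    push_cast
    rfl
  have e2 : ∀ s b : S, ∑ c : S, (if Q s b c ∧ P s b then (1 : ℝ) else 0) =
      if P s b then (n : ℝ) else 0 := by
    intro s b
    by_cases hp : P s b
    · rw [if_pos hp, ← hQ s b, Finset.card_filter]
      push_cast
      refine Finset.sum_congr rfl fun c _ => ?_
      by_cases hq : Q s b c
      · rw [if_pos ⟨hq, hp⟩, if_pos hq]
      · rw [if_neg (fun h => hq h.1), if_neg hq]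
    · rw [if_neg hp]
      refine Finset.sum_eq_zero fun c _ => ?_
      rw [if_neg (fun h => hp h.2)]
  have e3 : ∀ s : S, ∑ b : S, (if P s b then (n : ℝ) else 0) = (k : ℝ) * n := by
    intro s
    rw [← hP s, ← Finset.sum_filter, Finset.sum_const, nsmul_eq_mul]
  calc ∑ b : S, ∑ c : S, ((univ.filter (fun s => Q s b c ∧ P s b)).card : ℝ)
      = ∑ b : S, ∑ s : S, ∑ c : S, (if Q s b c ∧ P s b then (1 : ℝ) else 0) := by
        refine Finset.sum_congr rfl fun b _ => ?_
        rw [Finset.sum_comm]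
        exact Finset.sum_congr rfl fun c _ => e1 b c
    _ = ∑ s : S, ∑ b : S, ∑ c : S, (if Q s b c ∧ P s b then (1 : ℝ) else 0) := Finset.sum_comm
    _ = ∑ s : S, (k : ℝ) * n := by
        refine Finset.sum_congr rfl fun s _ => ?_
        rw [← e3 s]
        exact Finset.sum_congr rfl fun b _ => e2 s b
    _ = (Fintype.card S : ℝ) * k * n := by
        rw [Finset.sum_const, nsmul_eq_mul, Finset.card_univ]
        ring

open Classical in
theorem fra_one {α b c : S} (hα : IsUnit α) : rm m 1 b (α * c) = rm m α b c := by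
  symm
  obtain ⟨u, hu⟩ := hα
  refine Finset.card_bij (fun s _ => α * s) ?_ ?_ ?_
  · intro s hs
    rw [Finset.mem_filter] at hs ⊢
    refine ⟨mem_univ _, ?_⟩
    have : 1 * (α * s) ^ 2 + b * (α * s) + α * c = α * (α * s ^ 2 + b * s + c) := by ring
    rw [this]
    exact Ideal.mul_mem_left _ _ hs.2
  · intro s _ t _ hst
    rw [← hu] at hst
    exact u.isUnit.mul_left_cancel hst
  · intro t ht
    rw [Finset.mem_filter] at ht
    have hinv : (↑u⁻¹ : S) * α = 1 := by rw [← hu]; exact u.inv_mul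
    refine ⟨↑u⁻¹ * t, ?_, ?_⟩
    · rw [Finset.mem_filter]
      refine ⟨mem_univ _, ?_⟩
      have : α * (↑u⁻¹ * t) ^ 2 + b * (↑u⁻¹ * t) + c =
          ↑u⁻¹ * (1 * t ^ 2 + b * t + α * c) := by
        linear_combination (↑u⁻¹ * t ^ 2 - c) * hinv
      rw [this]
      exact Ideal.mul_mem_left _ _ ht.2
    · show α * (↑u⁻¹ * t) = t
      linear_combination t * hinv

omit [Fintype S] in
theorem fra_gm {α b c : S} (hα : IsUnit α) :
    gm m α b c ↔ ¬ ∃ s, 2 * α * s + b ∈ m ∧ α * s ^ 2 + b * s + c = 0 := by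
  obtain ⟨u, hu⟩ := hα
  have hinv : (↑u⁻¹ : S) * α = 1 := by rw [← hu]; exact u.inv_mul
  refine not_congr ⟨?_, ?_⟩
  · rintro ⟨s, h1, h2⟩
    refine ⟨↑u⁻¹ * s, ?_, ?_⟩
    · have : 2 * α * (↑u⁻¹ * s) + b = b + 2 * s := by linear_combination (2 * s) * hinv
      rwa [this]
    · linear_combination (↑u⁻¹ : S) * h2 + (↑u⁻¹ * s ^ 2 - c) * hinv
  · rintro ⟨s, h1, h2⟩
    refine ⟨α * s, ?_, ?_⟩
    · have : b + 2 * (α * s) = 2 * α * s + b := by ring
      rwa [this]
    · linear_combination α * h2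

open Classical in
/-- the number of simple roots modulo `m` -/
noncomputable def nD (m : Ideal S) (α b c : S) : ℕ :=
  (univ.filter (fun s : S => α * s ^ 2 + b * s + c ∈ m ∧ 2 * α * s + b ∉ m)).card

open Classical in
/-- the number of double roots modulo `m` -/
noncomputable def nC (m : Ideal S) (α b c : S) : ℕ :=
  (univ.filter (fun s : S => α * s ^ 2 + b * s + c ∈ m ∧ 2 * α * s + b ∈ m)).card

open Classical in
/-- the number of double roots modulo `m` that are roots -/
noncomputable def nB (m : Ideal S) (α b c : S) : ℕ :=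
  (univ.filter (fun s : S => α * s ^ 2 + b * s + c = 0 ∧ 2 * α * s + b ∈ m)).card

theorem fra_caseA {α b c : S} (hα : IsUnit α) (h0 : ∀ s, α * s ^ 2 + b * s + c ∉ m) :
    rm m α b c = 0 ∧ rm ⊥ α b c = 0 ∧ nD m α b c = 0 ∧ nC m α b c = 0 ∧ nB m α b c = 0 ∧
      gm m α b c := by
  classical
  have h1 : ∀ s, α * s ^ 2 + b * s + c ≠ 0 := by
    intro s hs
    exact h0 s (by rw [hs]; exact m.zero_mem)
  refine ⟨?_, ?_, ?_, ?_, ?_, ?_⟩
  · exact Finset.card_eq_zero.2 (Finset.filter_eq_empty_iff.2 fun s _ => h0 s)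
  · exact Finset.card_eq_zero.2 (Finset.filter_eq_empty_iff.2 fun s _ hs =>
      h1 s (by simpa using hs))
  · exact Finset.card_eq_zero.2 (Finset.filter_eq_empty_iff.2 fun s _ hs => h0 s hs.1)
  · exact Finset.card_eq_zero.2 (Finset.filter_eq_empty_iff.2 fun s _ hs => h0 s hs.1)
  · exact Finset.card_eq_zero.2 (Finset.filter_eq_empty_iff.2 fun s _ hs => h1 s hs.1)
  · rw [fra_gm hα]
    rintro ⟨s, _, hs⟩
    exact h1 s hs

theorem fra_caseB (h : LR S m N) {α r t : S} (hα : IsUnit α) (hrt : r - t ∉ m) :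
    rm m α (-α * (r + t)) (α * r * t) = 2 * N ∧ rm ⊥ α (-α * (r + t)) (α * r * t) = 2 ∧
      nD m α (-α * (r + t)) (α * r * t) = 2 * N ∧ nC m α (-α * (r + t)) (α * r * t) = 0 ∧
      nB m α (-α * (r + t)) (α * r * t) = 0 ∧ gm m α (-α * (r + t)) (α * r * t) := by
  classical
  have hαm : α ∉ m := (h.unit α).2 hα
  have hF : ∀ s, α * s ^ 2 + -α * (r + t) * s + α * r * t = α * ((s - r) * (s - t)) := by
    intro s; ring
  have hF' : ∀ s, 2 * α * s + -α * (r + t) = α * ((s - r) + (s - t)) := by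
    intro s; ring
  have hdis : ∀ s, s - r ∈ m → s - t ∈ m → False := by
    intro s h1 h2
    have : r - t = (s - t) - (s - r) := by ring
    exact hrt (this ▸ m.sub_mem h2 h1)
  have hmem : ∀ s, α * s ^ 2 + -α * (r + t) * s + α * r * t ∈ m ↔ (s - r ∈ m ∨ s - t ∈ m) := by
    intro s
    rw [hF]
    constructor
    · intro hs
      rcases fra_mul h hs with h1 | h1
      · exact absurd h1 hαm
      · exact fra_mul h h1
    · rintro (h1 | h1)
      · exact m.mul_mem_left _ (m.mul_mem_right _ h1)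
      · exact m.mul_mem_left _ (m.mul_mem_left _ h1)
  have hder : ∀ s, (s - r ∈ m ∨ s - t ∈ m) → 2 * α * s + -α * (r + t) ∉ m := by
    intro s hs hd
    rw [hF'] at hd
    rcases fra_mul h hd with h1 | h1
    · exact hαm h1
    · rcases hs with h2 | h2
      · exact hdis s h2 (by simpa using m.sub_mem h1 h2)
      · exact hdis s (by simpa using m.sub_mem h1 h2) h2
  have hzero : ∀ s, α * s ^ 2 + -α * (r + t) * s + α * r * t = 0 ↔ (s = r ∨ s = t) := by
    intro s
    rw [hF]
    constructor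
    · intro hs
      have hs' : (s - r) * (s - t) = 0 := (hα.mul_right_eq_zero).1 hs
      by_cases h1 : s - r ∈ m
      · have h2 : s - t ∉ m := fun h2 => hdis s h1 h2
        left
        have := (((h.unit _).1 h2).mul_left_eq_zero).1 hs'
        exact sub_eq_zero.1 this
      · right
        have := (((h.unit _).1 h1).mul_right_eq_zero).1 hs'
        exact sub_eq_zero.1 this
    · rintro (rfl | rfl) <;> simp
  have hcard : (univ.filter (fun s : S => s - r ∈ m ∨ s - t ∈ m)).card = 2 * N := by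
    rw [Finset.filter_or, Finset.card_union_of_disjoint]
    · have e1 := fra_coset h (-r)
      have e2 := fra_coset h (-t)
      simp only [← sub_eq_add_neg] at e1 e2
      rw [e1, e2]
      ring
    · rw [Finset.disjoint_filter]
      exact fun s _ h1 h2 => hdis s h1 h2
  refine ⟨?_, ?_, ?_, ?_, ?_, ?_⟩
  · rw [← hcard]
    exact congrArg Finset.card (Finset.filter_congr fun s _ => hmem s)
  · have hne : r ≠ t := by
      rintro rfl
      exact hrt (by simp)
    rw [← Finset.card_pair hne]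
    refine congrArg Finset.card ?_
    ext s
    simp only [Finset.mem_filter, Finset.mem_univ, true_and, Ideal.mem_bot,
      Finset.mem_insert, Finset.mem_singleton]
    exact hzero s
  · rw [← hcard]
    refine congrArg Finset.card (Finset.filter_congr fun s _ => ?_)
    exact ⟨fun hs => (hmem s).1 hs.1, fun hs => ⟨(hmem s).2 hs, hder s hs⟩⟩
  · exact Finset.card_eq_zero.2 (Finset.filter_eq_empty_iff.2 fun s _ hs =>
      hder s ((hmem s).1 hs.1) hs.2)
  · refine Finset.card_eq_zero.2 (Finset.filter_eq_empty_iff.2 fun s _ hs => ?_)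
    exact hder s ((hmem s).1 (by rw [hs.1]; exact m.zero_mem)) hs.2
  · rw [fra_gm hα]
    rintro ⟨s, h1, h2⟩
    exact hder s ((hmem s).1 (by rw [h2]; exact m.zero_mem)) h1

theorem fra_caseC (h : LR S m N) {α b c r : S} (hα : IsUnit α)
    (hr : α * r ^ 2 + b * r + c ∈ m) (hd : 2 * α * r + b ∈ m) :
    rm m α b c = N ∧ nD m α b c = 0 ∧ nC m α b c = N ∧
      ((¬ gm m α b c ∧ nB m α b c = N) ∨
        (gm m α b c ∧ nB m α b c = 0 ∧ rm ⊥ α b c = 0)) := by
  classical
  have hαm : α ∉ m := (h.unit α).2 hα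
  have hF : ∀ s, α * s ^ 2 + b * s + c = (α * r ^ 2 + b * r + c) +
      ((s - r) * (α * (s - r)) + (s - r) * (2 * α * r + b)) := by
    intro s; ring
  have hF' : ∀ s, 2 * α * s + b = 2 * α * (s - r) + (2 * α * r + b) := by
    intro s; ring
  have hmem : ∀ s, α * s ^ 2 + b * s + c ∈ m ↔ s - r ∈ m := by
    intro s
    constructor
    · intro hs
      have h1 : (s - r) * (α * (s - r)) ∈ m := by
        have : (s - r) * (α * (s - r)) = (α * s ^ 2 + b * s + c) - (α * r ^ 2 + b * r + c) -
            (s - r) * (2 * α * r + b) := by ring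
        rw [this]
        exact m.sub_mem (m.sub_mem hs hr) (m.mul_mem_left _ hd)
      rcases fra_mul h h1 with h2 | h2
      · exact h2
      · exact (fra_mul h h2).resolve_left hαm
    · intro hs
      rw [hF]
      exact m.add_mem hr (m.add_mem (m.mul_mem_right _ hs) (m.mul_mem_right _ hs))
  have hder : ∀ s, s - r ∈ m → 2 * α * s + b ∈ m := by
    intro s hs
    rw [hF']
    exact m.add_mem (m.mul_mem_left _ hs) hd
  have hval : ∀ s, s - r ∈ m → α * s ^ 2 + b * s + c = α * r ^ 2 + b * r + c := by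
    intro s hs
    rw [hF, h.sq _ hs _ (m.mul_mem_left α hs), h.sq _ hs _ hd]
    ring
  have hcard : (univ.filter (fun s : S => s - r ∈ m)).card = N := by
    have e1 := fra_coset h (-r)
    simp only [← sub_eq_add_neg] at e1
    exact e1
  refine ⟨?_, ?_, ?_, ?_⟩
  · rw [← hcard]
    exact congrArg Finset.card (Finset.filter_congr fun s _ => hmem s)
  · exact Finset.card_eq_zero.2 (Finset.filter_eq_empty_iff.2 fun s _ hs =>
      hs.2 (hder s ((hmem s).1 hs.1)))
  · rw [← hcard]
    refine congrArg Finset.card (Finset.filter_congr fun s _ => ?_)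
    exact ⟨fun hs => (hmem s).1 hs.1, fun hs => ⟨(hmem s).2 hs, hder s hs⟩⟩
  · by_cases hz : α * r ^ 2 + b * r + c = 0
    · left
      refine ⟨?_, ?_⟩
      · rw [fra_gm hα]
        exact fun hn => hn ⟨r, hd, hz⟩
      · rw [← hcard]
        refine congrArg Finset.card (Finset.filter_congr fun s _ => ?_)
        refine ⟨fun hs => (hmem s).1 (by rw [hs.1]; exact m.zero_mem), fun hs => ⟨?_, hder s hs⟩⟩
        rw [hval s hs, hz]
    · right
      have hnz : ∀ s, α * s ^ 2 + b * s + c ≠ 0 := by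
        intro s hs
        have h1 : s - r ∈ m := (hmem s).1 (by rw [hs]; exact m.zero_mem)
        exact hz (by rw [← hval s h1, hs])
      refine ⟨?_, ?_, ?_⟩
      · rw [fra_gm hα]
        rintro ⟨s, _, hs⟩
        exact hnz s hs
      · exact Finset.card_eq_zero.2 (Finset.filter_eq_empty_iff.2 fun s _ hs => hnz s hs.1)
      · exact Finset.card_eq_zero.2 (Finset.filter_eq_empty_iff.2 fun s _ hs =>
          hnz s (by simpa using hs))

theorem fra_split (h : LR S m N) {α b c r : S} (hα : IsUnit α)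
    (hr : α * r ^ 2 + b * r + c ∈ m) (hd : 2 * α * r + b ∉ m) :
    ∃ r' t : S, r' - t ∉ m ∧ b = -α * (r' + t) ∧ c = α * r' * t := by
  obtain ⟨u, hu⟩ := hα
  have hinv : (↑u⁻¹ : S) * α = 1 := by rw [← hu]; exact u.inv_mul
  obtain ⟨v, hv⟩ := (h.unit _).1 hd
  have hinv2 : (↑v⁻¹ : S) * (2 * α * r + b) = 1 := by rw [← hv]; exact v.inv_mul
  set F := α * r ^ 2 + b * r + c with hF
  set d := 2 * α * r + b with hdd
  have hFF : F * F = 0 := h.sq _ hr _ hr
  have hroot : α * (r - ↑v⁻¹ * F) ^ 2 + b * (r - ↑v⁻¹ * F) + c = 0 := by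
    have : α * (r - ↑v⁻¹ * F) ^ 2 + b * (r - ↑v⁻¹ * F) + c =
        F - (↑v⁻¹ * d) * F + α * ↑v⁻¹ ^ 2 * (F * F) := by
      rw [hdd]
      linear_combination -hF
    rw [this, hinv2, hFF]
    ring
  refine ⟨r - ↑v⁻¹ * F, -(↑u⁻¹ * b) - (r - ↑v⁻¹ * F), ?_, ?_, ?_⟩
  · intro hm
    apply hd
    have : d = α * (r - ↑v⁻¹ * F - (-(↑u⁻¹ * b) - (r - ↑v⁻¹ * F))) + 2 * α * ↑v⁻¹ * F := by
      rw [hdd]
      linear_combination -b * hinv
    rw [this]
    exact m.add_mem (m.mul_mem_left _ hm) (m.mul_mem_left _ hr)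
  · linear_combination -b * hinv
  · linear_combination hroot + (r - ↑v⁻¹ * F) * b * hinv

open Classical in
theorem fra_pt (h : LR S m N) {α b c : S} (hα : IsUnit α) (Φ : ℕ → ℕ → ℕ → ℝ) :
    (if gm m α b c then Φ (rm m 1 b (α * c)) (rm m α b c) (rm ⊥ α b c) else 0) =
      Φ (2 * N) (2 * N) 2 * (nD m α b c / (2 * N)) +
        Φ N N 0 * ((nC m α b c - nB m α b c) / N) +
        Φ 0 0 0 * (1 - nD m α b c / (2 * N) - nC m α b c / N) := by
  have hN : (N : ℝ) ≠ 0 := by
    have := h.one
    positivity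
  rw [fra_one hα]
  by_cases h0 : ∃ r, α * r ^ 2 + b * r + c ∈ m
  · obtain ⟨r, hr⟩ := h0
    by_cases hd : 2 * α * r + b ∈ m
    · obtain ⟨e1, e2, e3, e4⟩ := fra_caseC h hα hr hd
      rcases e4 with ⟨g1, g2⟩ | ⟨g1, g2, g3⟩
      · rw [if_neg g1, e2, e3, g2]
        field_simp
        push_cast
        ring
      · rw [if_pos g1, e1, e2, e3, g2, g3]
        field_simp
        push_cast
        ring
    · obtain ⟨r', t, hrt, rfl, rfl⟩ := fra_split h hα hr hd
      obtain ⟨e1, e2, e3, e4, e5, e6⟩ := fra_caseB h hα hrt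
      rw [if_pos e6, e1, e2, e3, e4, e5]
      push_cast
      field_simp
      ring
  · obtain ⟨e1, e2, e3, e4, e5, e6⟩ := fra_caseA hα (fun s hs => h0 ⟨s, hs⟩)
    rw [if_pos e6, e1, e2, e3, e4, e5]
    push_cast
    ring

end

theorem pf_FRA : T_FRA := by
  classical
  intro S _ _ m N h α Φ hα
  have hN : (N : ℝ) ≠ 0 := by
    have := h.one
    positivity
  have hNle : N ≤ N ^ 2 := by nlinarith [h.one]
  have sD : ∑ b : S, ∑ c : S, (nD m α b c : ℝ) = (N : ℝ) ^ 2 * ((N ^ 2 - N : ℕ) : ℝ) * N := by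
    have := fra_sum (S := S) (fun s b => 2 * α * s + b ∉ m)
      (fun s b c => α * s ^ 2 + b * s + c ∈ m) N (N ^ 2 - N)
      (fun s b => (congrArg Finset.card (Finset.filter_congr fun c _ => by
        rw [add_comm c])).symm.trans (fra_coset h (α * s ^ 2 + b * s)) |>.trans rfl)
      (fun s => by simpa [add_comm] using fra_coset' h (2 * α * s))
    rw [h.cardS] at this
    push_cast at this ⊢
    rw [← this]
    exact Finset.sum_congr rfl fun b _ => Finset.sum_congr rfl fun c _ =>
      congrArg (fun n : ℕ => (n : ℝ)) (congrArg Finset.card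
        (Finset.ext fun s => by simp only [Finset.mem_filter]))
  have sC : ∑ b : S, ∑ c : S, (nC m α b c : ℝ) = (N : ℝ) ^ 2 * N * N := by
    have := fra_sum (S := S) (fun s b => 2 * α * s + b ∈ m)
      (fun s b c => α * s ^ 2 + b * s + c ∈ m) N N
      (fun s b => (congrArg Finset.card (Finset.filter_congr fun c _ => by
        rw [add_comm c])).symm.trans (fra_coset h (α * s ^ 2 + b * s)) |>.trans rfl)
      (fun s => by simpa [add_comm] using fra_coset h (2 * α * s))
    rw [h.cardS] at this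
    push_cast at this ⊢
    rw [← this]
    exact Finset.sum_congr rfl fun b _ => Finset.sum_congr rfl fun c _ =>
      congrArg (fun n : ℕ => (n : ℝ)) (congrArg Finset.card
        (Finset.ext fun s => by simp only [Finset.mem_filter]))
  have sB : ∑ b : S, ∑ c : S, (nB m α b c : ℝ) = (N : ℝ) ^ 2 * N * (1 : ℕ) := by
    have := fra_sum (S := S) (fun s b => 2 * α * s + b ∈ m)
      (fun s b c => α * s ^ 2 + b * s + c = 0) 1 N
      (fun s b => (congrArg Finset.card (Finset.filter_congr fun c _ => by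
        rw [add_comm c])).symm.trans (fra_single (α * s ^ 2 + b * s)) |>.trans rfl)
      (fun s => by simpa [add_comm] using fra_coset h (2 * α * s))
    rw [h.cardS] at this
    push_cast at this ⊢
    rw [← this]
    exact Finset.sum_congr rfl fun b _ => Finset.sum_congr rfl fun c _ =>
      congrArg (fun n : ℕ => (n : ℝ)) (congrArg Finset.card
        (Finset.ext fun s => by simp only [Finset.mem_filter]))
  have s1 : ∑ b : S, ∑ c : S, (1 : ℝ) = (N : ℝ) ^ 2 * (N : ℝ) ^ 2 := by
    simp only [Finset.sum_const, nsmul_eq_mul, Finset.card_univ, h.cardS]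
    push_cast
    ring
  have key : ∑ b : S, ∑ c : S, (if gm m α b c then
      Φ (rm m 1 b (α * c)) (rm m α b c) (rm ⊥ α b c) else 0) =
      Φ (2 * N) (2 * N) 2 * ((∑ b : S, ∑ c : S, (nD m α b c : ℝ)) / (2 * N)) +
        Φ N N 0 * ((∑ b : S, ∑ c : S, (nC m α b c : ℝ) -
          ∑ b : S, ∑ c : S, (nB m α b c : ℝ)) / N) +
        Φ 0 0 0 * (∑ b : S, ∑ c : S, (1 : ℝ) -
          (∑ b : S, ∑ c : S, (nD m α b c : ℝ)) / (2 * N) -
          (∑ b : S, ∑ c : S, (nC m α b c : ℝ)) / N) := by
    simp only [fra_pt h hα Φ, Finset.sum_add_distrib, Finset.sum_sub_distrib, ← Finset.mul_sum,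
      ← Finset.sum_div]
  rw [key, sD, sC, sB, s1, Nat.cast_sub hNle]
  push_cast
  field_simp
  ring

end Pool.Agent.H50.NVK
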