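import Pool.Agent.H91.NV.LTargets

/-!
# Row L_GLF: the local identity
-/

set_option autoImplicit false

namespace Pool.Agent.H50.NVK

open Pool.Agent.H91.NV

theorem pf_GLF : T_GLF := by
  refine ⟨fun x t i j hi hj => ?_, fun x => ?_⟩
  · interval_cases i <;> interval_cases j <;>
      simp only [Finset.sum_range_succ, Finset.sum_range_zero, zero_add, Fl] <;>
      norm_num
  · simp only [Finset.sum_range_succ, Finset.sum_range_zero, zero_add, Fl, gl]
    norm_num
    ring

end Pool.Agent.H50.NVK
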